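import Pool.Agent.TH498.Clique.Twist
import Pool.Agent.TH498.Clique.Hemi

set_option autoImplicit false

/-!
# The nontrivial cocycle on the comparability graph of the hemicube poset
-/

namespace Pool.Agent.TH498.Clique.Hemi

/-- The support of the cocycle. -/
def supp : List (Nat × Nat) :=
  [(0, 6), (0, 10), (0, 11), (1, 7), (1, 11), (2, 10), (4, 11), (5, 10), (7, 10)]

def cB (a b : Nat) : Bool := supp.contains (a, b) || supp.contains (b, a)

def nearB (a b : Nat) : Bool := (a == b) || leB a b || leB b a

lemma cocycle_aux : ((List.range 13).all fun u => (List.range 13).all fun v =>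
    (List.range 13).all fun w => !(nearB u v && nearB v w && nearB u w) ||
      (xor (cB u v) (cB v w) == cB u w)) = true := by
  decide +kernel

lemma cocycle {u v w : Nat} (hu : u < 13) (hv : v < 13) (hw : w < 13) (h1 : nearB u v = true)
    (h2 : nearB v w = true) (h3 : nearB u w = true) : xor (cB u v) (cB v w) = cB u w := by
  have g1 := List.all_eq_true.1 cocycle_aux u (List.mem_range.2 hu)
  have g2 := List.all_eq_true.1 g1 v (List.mem_range.2 hv)
  have g3 := List.all_eq_true.1 g2 w (List.mem_range.2 hw)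
  rw [h1, h2, h3] at g3
  simpa using g3

def toZ (b : Bool) : ZMod 2 := if b then 1 else 0

lemma toZ_xor (a b : Bool) : toZ (xor a b) = toZ a + toZ b := by
  revert a b; decide

lemma near_iff {x y : Hemi} (h : Near (comparabilityGraph Hemi) x y) :
    nearB (toN x) (toN y) = true := by
  unfold nearB
  rcases h with h | h
  · subst h; simp
  · rcases h.2 with h | h
    · have : leB (toN x) (toN y) = true := h
      simp [this]
    · have : leB (toN y) (toN x) = true := h
      simp [this]

lemma twist_hemi : Twist ⟨Hemi, comparabilityGraph Hemi⟩ := by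
  refine ⟨fun x y => toZ (cB (toN x) (toN y)), ?_, ?_⟩
  · intro u v w huv hvw huw
    change toZ _ + toZ _ = toZ _
    rw [← toZ_xor]
    have hlt : ∀ x : Hemi, toN x < 13 := fun x => Fin.isLt (x : Fin 13)
    exact congrArg toZ (cocycle (hlt u) (hlt v) (hlt w)
      (near_iff huv) (near_iff hvw) (near_iff huw))
  · rintro ⟨b, hb⟩
    let x0 : Hemi := (0 : Fin 13)
    let x4 : Hemi := (4 : Fin 13)
    let x1 : Hemi := (1 : Fin 13)
    let x10 : Hemi := (10 : Fin 13)
    have l1 : x0 ≤ x4 := by change leB 0 4 = true; decide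
    have l2 : x1 ≤ x4 := by change leB 1 4 = true; decide
    have l3 : x1 ≤ x10 := by change leB 1 10 = true; decide
    have l4 : x0 ≤ x10 := by change leB 0 10 = true; decide
    have n1 : x0 ≠ x4 := by change (0 : Fin 13) ≠ 4; decide
    have n2 : x1 ≠ x4 := by change (1 : Fin 13) ≠ 4; decide
    have n3 : x1 ≠ x10 := by change (1 : Fin 13) ≠ 10; decide
    have n4 : x0 ≠ x10 := by change (0 : Fin 13) ≠ 10; decide
    have e1 := hb x0 x4 (Or.inr ⟨n1, Or.inl l1⟩)
    have e2 := hb x1 x4 (Or.inr ⟨n2, Or.inl l2⟩)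
    have e3 := hb x1 x10 (Or.inr ⟨n3, Or.inl l3⟩)
    have e4 := hb x0 x10 (Or.inr ⟨n4, Or.inl l4⟩)
    have f1 : toZ (cB (toN x0) (toN x4)) = 0 := by change toZ (cB 0 4) = 0; decide
    have f2 : toZ (cB (toN x1) (toN x4)) = 0 := by change toZ (cB 1 4) = 0; decide
    have f3 : toZ (cB (toN x1) (toN x10)) = 0 := by change toZ (cB 1 10) = 0; decide
    have f4 : toZ (cB (toN x0) (toN x10)) = 1 := by change toZ (cB 0 10) = 1; decide
    change toZ (cB (toN x0) (toN x4)) = _ at e1
    change toZ (cB (toN x1) (toN x4)) = _ at e2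
    change toZ (cB (toN x1) (toN x10)) = _ at e3
    change toZ (cB (toN x0) (toN x10)) = _ at e4
    rw [f1] at e1
    rw [f2] at e2
    rw [f3] at e3
    rw [f4] at e4
    revert e1 e2 e3 e4
    generalize b x0 = a0
    generalize b x1 = a1
    generalize b x4 = a4
    generalize b x10 = a10
    revert a0 a1 a4 a10
    decide

end Pool.Agent.TH498.Clique.Hemi
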