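import Mathlib

set_option autoImplicit false

/-!
# Iterated clique graphs and a `ZMod 2` cocycle

The clique graph operator preserves the existence of a nontrivial `ZMod 2` valued cocycle (the
class of a connected double cover of the clique complex).
-/

namespace Pool.Agent.TH498.Clique

/-- A graph together with its vertex type. -/
abbrev Gr := Σ V : Type, SimpleGraph V

/-- The clique graph: vertices are the maximal cliques, two distinct maximal cliques are adjacent
iff they share a vertex. -/
def K (G : Gr) : Gr :=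
  ⟨{s : Set G.1 // Maximal G.2.IsClique s},
    { Adj := fun s t => s ≠ t ∧ (s.1 ∩ t.1).Nonempty
      symm := ⟨fun s t h => ⟨h.1.symm, by rw [Set.inter_comm]; exact h.2⟩⟩
      loopless := ⟨fun s h => h.1 rfl⟩ }⟩

/-- The comparability graph of an ordered set. -/
def comparabilityGraph (P : Type) [PartialOrder P] : SimpleGraph P where
  Adj x y := x ≠ y ∧ (x ≤ y ∨ y ≤ x)
  symm := ⟨fun _ _ h => ⟨h.1.symm, h.2.symm⟩⟩
  loopless := ⟨fun _ h => h.1 rfl⟩

/-- Equal or adjacent. -/
def Near {V : Type} (G : SimpleGraph V) (u v : V) : Prop := u = v ∨ G.Adj u v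

lemma Near.symm {V : Type} {G : SimpleGraph V} {u v : V} (h : Near G u v) : Near G v u := by
  rcases h with h | h
  · exact Or.inl h.symm
  · exact Or.inr h.symm

/-- A nontrivial `ZMod 2` cocycle. -/
def Twist (G : Gr) : Prop :=
  ∃ c : G.1 → G.1 → ZMod 2,
    (∀ u v w, Near G.2 u v → Near G.2 v w → Near G.2 u w → c u v + c v w = c u w) ∧
    ¬ ∃ b : G.1 → ZMod 2, ∀ u v, Near G.2 u v → c u v = b u + b v

lemma near_of_clique {V : Type} {G : SimpleGraph V} {s : Set V} (hs : G.IsClique s) {u v : V}
    (hu : u ∈ s) (hv : v ∈ s) : Near G u v := by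
  by_cases h : u = v
  · exact Or.inl h
  · exact Or.inr (hs hu hv h)

lemma exists_max {V : Type} [Finite V] (G : SimpleGraph V) (s : Set V) (hs : G.IsClique s) :
    ∃ t, s ⊆ t ∧ Maximal G.IsClique t := by
  have hfin : {t : Set V | G.IsClique t}.Finite := Set.toFinite _
  obtain ⟨t, hst, ht⟩ := hfin.exists_le_maximal (a := s) hs
  exact ⟨t, hst, ht⟩

lemma zadd (a : ZMod 2) : a + a = 0 := by revert a; decide

lemma twist_K (G : Gr) [Finite G.1] (h : Twist G) : Twist (K G) := by
  classical
  obtain ⟨c, hc, hnb⟩ := h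
  have hcc : ∀ u, c u u = 0 := fun u => by
    have := hc u u u (Or.inl rfl) (Or.inl rfl) (Or.inl rfl)
    simpa using this
  have hsym : ∀ u v, Near G.2 u v → c v u = c u v := fun u v huv => by
    have := hc u v u huv huv.symm (Or.inl rfl)
    rw [hcc] at this
    have h2 := zadd (c u v)
    have : c u v + c v u = c u v + c u v := by rw [this, h2]
    exact add_left_cancel this
  -- the vertex set is nonempty
  have hne : Nonempty G.1 := by
    by_contra hemp
    rw [not_nonempty_iff] at hemp
    exact hnb ⟨fun _ => 0, fun u => (hemp.false u).elim⟩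
  -- maximal cliques are nonempty
  have hmne : ∀ Q : (K G).1, ∃ v, v ∈ Q.1 := by
    rintro ⟨s, hs⟩
    by_contra hcon
    push Not at hcon
    obtain ⟨v⟩ := hne
    have h1 : G.2.IsClique ({v} : Set G.1) := by simp
    have h2 : s ⊆ {v} := fun x hx => (hcon x hx).elim
    exact hcon v (hs.2 h1 h2 rfl)
  choose base hbase using hmne
  -- the key independence statement
  have hind : ∀ (Q : (K G).1) (x u v : G.1), x ∈ Q.1 → u ∈ Q.1 → v ∈ Q.1 →
      c x u + c u v = c x v := fun Q x u v hx hu hv =>
    hc x u v (near_of_clique Q.2.1 hx hu) (near_of_clique Q.2.1 hu hv) (near_of_clique Q.2.1 hx hv)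
  have hex : ∀ Q R : (K G).1, Near (K G).2 Q R → ∃ w, w ∈ Q.1 ∧ w ∈ R.1 := by
    rintro Q R (h | h)
    · subst h; exact ⟨base Q, hbase Q, hbase Q⟩
    · obtain ⟨w, hw1, hw2⟩ := h.2
      exact ⟨w, hw1, hw2⟩
  let c' : (K G).1 → (K G).1 → ZMod 2 := fun Q R =>
    if h : ∃ w, w ∈ Q.1 ∧ w ∈ R.1 then c (base Q) h.choose + c h.choose (base R) else 0
  have hc' : ∀ (Q R : (K G).1) (w : G.1), w ∈ Q.1 → w ∈ R.1 →
      c' Q R = c (base Q) w + c w (base R) := by
    intro Q R w hwQ hwR
    have hexw : ∃ w, w ∈ Q.1 ∧ w ∈ R.1 := ⟨w, hwQ, hwR⟩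
    simp only [c', dif_pos hexw]
    set z := hexw.choose with hz
    have hzQ : z ∈ Q.1 := hexw.choose_spec.1
    have hzR : z ∈ R.1 := hexw.choose_spec.2
    have e1 := hind Q (base Q) z w (hbase Q) hzQ hwQ
    have e2 := hind R z w (base R) hzR hwR (hbase R)
    rw [← e1, ← e2]
    ring
  refine ⟨c', ?_, ?_⟩
  · intro Q R T hQR hRT hQT
    obtain ⟨w, hw1, hw2⟩ := hex Q R hQR
    obtain ⟨x, hx1, hx2⟩ := hex R T hRT
    obtain ⟨y, hy1, hy2⟩ := hex Q T hQT
    rw [hc' Q R w hw1 hw2, hc' R T x hx1 hx2, hc' Q T y hy1 hy2]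
    have e1 := hind Q (base Q) y w (hbase Q) hy1 hw1
    have e2 := hind R w (base R) x hw2 (hbase R) hx1
    have e3 := hind T x y (base T) hx2 hy2 (hbase T)
    -- the triangle `w x y`
    have e4 : c w x + c x y = c w y :=
      hc w x y (near_of_clique R.2.1 hw2 hx1) (near_of_clique T.2.1 hx2 hy2)
        (near_of_clique Q.2.1 hw1 hy1)
    have e5 : c y w = c w y := hsym w y (near_of_clique Q.2.1 hw1 hy1)
    have e6 := zadd (c w y)
    calc c (base Q) w + c w (base R) + (c (base R) x + c x (base T))
        = c (base Q) w + (c w (base R) + c (base R) x) + c x (base T) := by ring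
      _ = (c (base Q) y + c y w) + c w x + (c x y + c y (base T)) := by rw [e2, ← e1, ← e3]
      _ = c (base Q) y + c y (base T) + (c y w + (c w x + c x y)) := by ring
      _ = c (base Q) y + c y (base T) := by rw [e4, e5, e6, add_zero]
  · rintro ⟨b, hb⟩
    apply hnb
    -- choose a maximal clique through every vertex
    have hthr : ∀ v : G.1, ∃ Q : (K G).1, v ∈ Q.1 := fun v => by
      obtain ⟨t, ht, hmax⟩ := exists_max G.2 {v} (by simp)
      exact ⟨⟨t, hmax⟩, ht rfl⟩
    choose q hq using hthr
    have hwell : ∀ (v : G.1) (Q : (K G).1), v ∈ Q.1 → b (q v) + c (base (q v)) v =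
        b Q + c (base Q) v := by
      intro v Q hv
      have hnear : Near (K G).2 (q v) Q := by
        by_cases h : q v = Q
        · exact Or.inl h
        · exact Or.inr ⟨h, ⟨v, hq v, hv⟩⟩
      have h1 := hb (q v) Q hnear
      rw [hc' (q v) Q v (hq v) hv] at h1
      have h2 : c v (base Q) = c (base Q) v := hsym _ _ (near_of_clique Q.2.1 (hbase Q) hv)
      rw [h2] at h1
      have h3 := zadd (c (base Q) v)
      have h4 := zadd (b (q v))
      calc b (q v) + c (base (q v)) v
          = b (q v) + (c (base (q v)) v + c (base Q) v) + c (base Q) v := by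
            rw [add_assoc, add_assoc, h3, add_zero]
        _ = (b (q v) + b (q v)) + b Q + c (base Q) v := by rw [h1]; ring
        _ = b Q + c (base Q) v := by rw [h4, zero_add]
    refine ⟨fun v => b (q v) + c (base (q v)) v, fun u v huv => ?_⟩
    have hcl : G.2.IsClique ({u, v} : Set G.1) := by
      rcases huv with h | h
      · subst h; simp
      · intro x hx y hy hxy
        rcases hx with rfl | rfl <;> rcases hy with rfl | rfl
        · exact (hxy rfl).elim
        · exact h
        · exact h.symm
        · exact (hxy rfl).elim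
    obtain ⟨t, ht, hmax⟩ := exists_max G.2 {u, v} hcl
    let Q : (K G).1 := ⟨t, hmax⟩
    have hu : u ∈ Q.1 := ht (by simp)
    have hv : v ∈ Q.1 := ht (by simp)
    change c u v = (b (q u) + c (base (q u)) u) + (b (q v) + c (base (q v)) v)
    rw [hwell u Q hu, hwell v Q hv]
    have e1 := hind Q (base Q) u v (hbase Q) hu hv
    have h3 := zadd (b Q)
    have h4 := zadd (c (base Q) u)
    rw [← e1]
    calc c u v = (b Q + b Q) + (c (base Q) u + c (base Q) u) + c u v := by
          rw [h3, h4]; simp
      _ = _ := by ring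

instance finite_K (G : Gr) [Finite G.1] : Finite (K G).1 := by
  unfold K; infer_instance

lemma finite_iter (G : Gr) [h : Finite G.1] (n : ℕ) : Finite ((K^[n] G).1) := by
  induction n with
  | zero => exact h
  | succ n ih => rw [Function.iterate_succ_apply']; exact finite_K _

lemma twist_iter (G : Gr) [Finite G.1] (h : Twist G) (n : ℕ) : Twist (K^[n] G) := by
  induction n with
  | zero => exact h
  | succ n ih =>
    rw [Function.iterate_succ_apply']
    haveI := finite_iter G n
    exact twist_K _ ih

lemma nontrivial_of_twist (G : Gr) (h : Twist G) : Nontrivial G.1 := by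
  by_contra hcon
  rw [not_nontrivial_iff_subsingleton] at hcon
  obtain ⟨c, hc, hnb⟩ := h
  apply hnb
  refine ⟨fun _ => 0, fun u v _ => ?_⟩
  have : u = v := Subsingleton.elim _ _
  subst this
  have := hc u u u (Or.inl rfl) (Or.inl rfl) (Or.inl rfl)
  simpa using this

end Pool.Agent.TH498.Clique
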